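import Pool.Agent.Y582.EX.All

/-!
# `C(ℕ*)` is `κ⁺`-injective under Martin's axiom for `κ` dense sets, for every infinite `κ`

The forcing language is the one of `Pool.Agent.Helper669.Forcing`: a sentence is the set of the
conditions which force it, `fnot`, `fand`, `fall` are the primitive connectives and `fimp`, `fex`
are defined from them classically; a name for a subset of a ground model set `X` is a map sending
`x : X` to a set of conditions, and `meets N` says that the generic filter meets `N`. The sentence
`MartinHolds P X` is the translation into the forcing language of the proposition `MartinFor X`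
(both are in `Pool.Agent.W684.FM.Defs`), which is Martin's axiom for preorders with underlying set
`X` and `X`-indexed families of dense sets. It is equivalent to the usual form of Martin's axiom
for `#X` dense sets, `MartinAxiomCard #X` of `Pool.Agent.W684.FM.Ambient`.
-/

set_option autoImplicit false

namespace Pool.Agent.Results.MP_b72cba_an.AllDensities

open Cardinal Pool.Agent.Helper669.Forcing Pool.Agent.W684 Pool.Agent.W684.FM Pool.Agent.Y582.EX
open scoped BoundedContinuousFunction

universe u

/-- `NStar` is `ℕ* = βℕ \ ℕ`, and `IsInjectiveFor lam κ E` says that `E` is `(λ, κ)`-injective.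

* For every infinite set `X` of the ground model there is a preordered set of forcing conditions
  such that every condition forces that all cardinals of the ground model are cardinals, that
  `ω₁` is preserved and that Martin's axiom for `#X` dense sets holds (in the two equivalent
  formulations).
* For every infinite cardinal `κ`, Martin's axiom for `κ` dense sets implies that `C(ℕ*)` is
  `(λ, κ⁺)`-injective for every real number `λ > 3`: operators into `C(ℕ*)` extend from closed
  subspaces of Banach spaces of density character at most `κ`.
* In particular (`κ = ℵ₁`) Martin's axiom for `ℵ₁` dense sets implies that `C(ℕ*)` is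
  `(λ, ℵ₂)`-injective for every `λ > 3`, which is the question.
* Martin's axiom (for all `κ < 𝔠`) implies that `C(ℕ*)` is `(λ, 𝔠)`-injective for all `λ > 3`. -/
theorem result :
    (∀ (X : Type) [Infinite X],
      (∃ (P : Type) (_ : Preorder P), Nonempty P ∧ ∀ p : P,
        p ∈ CardinalsPreserved.{0, 0} P ∧ p ∈ OmegaOnePreserved P ∧ p ∈ MartinHolds P X) ∧
      (MartinFor X ↔ MartinAxiomCard #X)) ∧
    (∀ κ : Cardinal.{0}, ℵ₀ ≤ κ → MartinAxiomCard κ → ∀ lam : ℝ, 3 < lam →
      IsInjectiveFor.{u} lam (Order.succ (Cardinal.lift.{u} κ)) (NStar →ᵇ ℝ)) ∧
    (MartinAxiomCard ℵ₁ → ∀ lam : ℝ, 3 < lam → IsInjectiveFor.{u} lam (ℵ_ 2) (NStar →ᵇ ℝ)) ∧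
    ((∀ κ < Cardinal.continuum.{0}, MartinAxiomCard κ) → ∀ lam : ℝ, 3 < lam →
      IsInjectiveFor.{u} lam Cardinal.continuum.{u} (NStar →ᵇ ℝ)) := by
  refine ⟨fun X _ => ⟨exists_forcing X, martinFor_iff⟩, fun κ hκ hMA lam hlam =>
    inj_card hκ hMA hlam, fun hMA lam hlam => ?_, fun hMA lam hlam => inj_continuum hMA hlam⟩
  exact injective_main hMA hlam

end Pool.Agent.Results.MP_b72cba_an.AllDensities
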